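import Pool.Agent.UL3.Stmts

set_option autoImplicit false

/-!
# Row ISO of squad UL3 (MP_c7c9bf_co): isotropic position
-/

namespace Pool.Agent.UL3.H24

open MeasureTheory Set Pool.Agent.UL3
open scoped MatrixOrder Matrix.Norms.L2Operator Matrix

/-- A positive definite real matrix is `Yᵀ Y` with `Y` invertible. -/
lemma posdef_fac (C : Matrix (Fin 3) (Fin 3) ℝ) (hC : C.PosDef) :
    ∃ Y : Matrix (Fin 3) (Fin 3) ℝ, IsUnit Y.det ∧ C = Yᵀ * Y := by
  obtain ⟨y, hy, h⟩ := CStarAlgebra.isStrictlyPositive_iff_eq_star_mul_self.mp hC.isStrictlyPositive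
  refine ⟨y, (Matrix.isUnit_iff_isUnit_det y).1 hy, ?_⟩
  rw [h, Matrix.star_eq_conjTranspose, Matrix.conjTranspose_eq_transpose_of_trivial]

/-- The volume of a symmetric convex body is positive. -/
lemma V_pos {K : Set E3} (h : SB K) : 0 < V K := by
  unfold V
  rw [measureReal_def]
  refine ENNReal.toReal_pos ?_ h.cpt.measure_lt_top.ne
  exact (lt_of_lt_of_le (isOpen_interior.measure_pos volume h.int) (measure_mono interior_subset)).ne'

/-- The linear functional `x ↦ ∑ y i * x i` has a positive second moment. -/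
lemma mom_pos {K : Set E3} (h : SB K) (y : Fin 3 → ℝ) (hy : y ≠ 0) :
    0 < ∫ x in K, (∑ i, y i * x i) ^ 2 := by
  have hcont : Continuous fun x : E3 => (∑ i, y i * x i) ^ 2 := by
    fun_prop
  have hint : IntegrableOn (fun x : E3 => (∑ i, y i * x i) ^ 2) K :=
    hcont.continuousOn.integrableOn_compact h.cpt
  rw [setIntegral_pos_iff_support_of_nonneg_ae
    (Filter.Eventually.of_forall fun x => sq_nonneg _) hint]
  -- an open nonempty subset
  have hopen : IsOpen (interior K ∩ {x : E3 | (∑ i, y i * x i) ^ 2 ≠ 0}) :=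
    isOpen_interior.inter (isOpen_ne_fun hcont continuous_const)
  have hne : (interior K ∩ {x : E3 | (∑ i, y i * x i) ^ 2 ≠ 0}).Nonempty := by
    have h0 : (0 : E3) ∈ interior K := h.zero_mem
    have ht : Filter.Tendsto (fun t : ℝ => t • (WithLp.toLp 2 y : E3)) (nhds 0) (nhds 0) := by
      have : Continuous fun t : ℝ => t • (WithLp.toLp 2 y : E3) := by fun_prop
      have h1 := this.tendsto 0
      simpa using h1
    have h1 : ∀ᶠ t in nhds (0 : ℝ), t • (WithLp.toLp 2 y : E3) ∈ interior K :=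
      ht.eventually (isOpen_interior.mem_nhds h0)
    obtain ⟨ε, hε, h2⟩ := Metric.eventually_nhds_iff.1 h1
    have h3 : (ε / 2) • (WithLp.toLp 2 y : E3) ∈ interior K := by
      apply h2
      rw [Real.dist_eq, sub_zero, abs_of_pos (by positivity)]
      linarith
    refine ⟨_, h3, ?_⟩
    have h4 : ∑ i, y i * ((ε / 2) • (WithLp.toLp 2 y : E3)) i = (ε / 2) * ∑ i, y i ^ 2 := by
      rw [Finset.mul_sum]
      refine Finset.sum_congr rfl fun i _ => ?_
      rw [PiLp.smul_apply, smul_eq_mul]
      show y i * (ε / 2 * y i) = ε / 2 * y i ^ 2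
      ring
    have h5 : 0 < ∑ i, y i ^ 2 := by
      obtain ⟨j, hj⟩ := Function.ne_iff.1 hy
      exact Finset.sum_pos' (fun i _ => sq_nonneg _) ⟨j, Finset.mem_univ _, by
        have : y j ≠ 0 := hj
        positivity⟩
    show (∑ i, y i * ((ε / 2) • (WithLp.toLp 2 y : E3)) i) ^ 2 ≠ 0
    rw [h4]
    positivity
  refine lt_of_lt_of_le (hopen.measure_pos volume hne) (measure_mono ?_)
  rintro x ⟨h1, h2⟩
  exact ⟨h2, interior_subset h1⟩

/-- integrability of the products of the coordinates -/
lemma int_coord {K : Set E3} (h : SB K) (i j : Fin 3) (c : ℝ) :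
    IntegrableOn (fun x : E3 => c * (x i * x j)) K := by
  have hcont : Continuous fun x : E3 => c * (x i * x j) := by
    fun_prop
  exact hcont.continuousOn.integrableOn_compact h.cpt

/-- The quadratic expansion of the second moments. -/
lemma mom_expand {K : Set E3} (h : SB K) (y z : Fin 3 → ℝ) :
    ∫ x in K, (∑ i, y i * x i) * (∑ j, z j * x j) =
      ∑ i, ∑ j, (y i * z j) * ∫ x in K, x i * x j := by
  have h1 : ∀ x : E3, (∑ i, y i * x i) * (∑ j, z j * x j) =
      ∑ i, ∑ j, (y i * z j) * (x i * x j) := by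
    intro x
    rw [Finset.sum_mul]
    refine Finset.sum_congr rfl fun i _ => ?_
    rw [Finset.mul_sum]
    refine Finset.sum_congr rfl fun j _ => ?_
    ring
  simp only [h1]
  rw [integral_finsetSum _ fun i _ => integrable_finsetSum _ fun j _ => int_coord h i j _]
  refine Finset.sum_congr rfl fun i _ => ?_
  rw [integral_finsetSum _ fun j _ => int_coord h i j _]
  refine Finset.sum_congr rfl fun j _ => ?_
  rw [integral_const_mul]

/-- The linear equivalence of an invertible matrix. -/
lemma exists_equiv (B : Matrix (Fin 3) (Fin 3) ℝ) (hB : IsUnit B.det) :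
    ∃ T : E3 ≃L[ℝ] E3, ∀ (x : E3) (i : Fin 3), (T x) i = ∑ j, B i j * x j := by
  have h1 : ∀ x : E3, Matrix.toEuclideanLin B⁻¹ (Matrix.toEuclideanLin B x) = x := by
    intro x
    show WithLp.toLp 2 (B⁻¹ *ᵥ (B *ᵥ WithLp.ofLp x)) = x
    rw [Matrix.mulVec_mulVec, Matrix.nonsing_inv_mul _ hB, Matrix.one_mulVec]
  have h2 : ∀ x : E3, Matrix.toEuclideanLin B (Matrix.toEuclideanLin B⁻¹ x) = x := by
    intro x
    show WithLp.toLp 2 (B *ᵥ (B⁻¹ *ᵥ WithLp.ofLp x)) = x
    rw [Matrix.mulVec_mulVec, Matrix.mul_nonsing_inv _ hB, Matrix.one_mulVec]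
  let L : E3 ≃ₗ[ℝ] E3 :=
    { Matrix.toEuclideanLin B with
      invFun := Matrix.toEuclideanLin B⁻¹
      left_inv := h1
      right_inv := h2 }
  refine ⟨L.toContinuousLinearEquiv, fun x i => ?_⟩
  rfl

/-- The proof of row ISO. -/
theorem iso : IsoStmt := by
  intro K hK
  have hV : 0 < V K := V_pos hK
  set C : Matrix (Fin 3) (Fin 3) ℝ := Matrix.of fun i j => (∫ x in K, x i * x j) / V K with hC
  have hCij : ∀ i j, (∫ x in K, x i * x j) = V K * C i j := by
    intro i j
    rw [hC, Matrix.of_apply]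
    field_simp
  have hCsym : C.IsHermitian := by
    ext i j
    rw [Matrix.conjTranspose_apply, star_trivial, hC, Matrix.of_apply, Matrix.of_apply]
    simp only [mul_comm]
  have hCpos : C.PosDef := by
    refine Matrix.PosDef.of_dotProduct_mulVec_pos hCsym fun y hy => ?_
    have h1 := mom_pos hK y hy
    have h2 : ∫ x in K, (∑ i, y i * x i) ^ 2 = V K * (y ⬝ᵥ (C *ᵥ y)) := by
      have h3 := mom_expand hK y y
      have h4 : (∫ x in K, (∑ i, y i * x i) ^ 2) =
          ∫ x in K, (∑ i, y i * x i) * (∑ j, y j * x j) := by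
        simp only [sq]
      rw [h4, h3]
      unfold dotProduct
      simp only [Matrix.mulVec, dotProduct]
      rw [Finset.mul_sum]
      refine Finset.sum_congr rfl fun i _ => ?_
      rw [Finset.mul_sum, Finset.mul_sum]
      refine Finset.sum_congr rfl fun j _ => ?_
      rw [hCij]
      ring
    rw [h2] at h1
    rw [star_trivial]
    exact (mul_pos_iff_of_pos_left hV).1 h1
  obtain ⟨Y, hY, hCY⟩ := posdef_fac C hCpos
  set B : Matrix (Fin 3) (Fin 3) ℝ := (Yᵀ)⁻¹ with hB
  have hYt : IsUnit (Yᵀ).det := by rwa [Matrix.det_transpose]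
  have hBdet : IsUnit B.det := by
    rw [hB]
    exact Matrix.isUnit_nonsing_inv_det _ hYt
  have hBCB : B * C * Bᵀ = 1 := by
    rw [hCY, hB, ← Matrix.mul_assoc, Matrix.nonsing_inv_mul _ hYt, Matrix.one_mul,
      Matrix.transpose_nonsing_inv, Matrix.transpose_transpose, Matrix.mul_nonsing_inv _ hY]
  obtain ⟨T, hT⟩ := exists_equiv B hBdet
  refine ⟨T, fun i j => ?_⟩
  have hder : ∀ x ∈ K, HasFDerivWithinAt (fun x => T x) ((T : E3 →L[ℝ] E3)) K x := fun x _ =>
    (T : E3 →L[ℝ] E3).hasFDerivWithinAt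
  have hinj : InjOn (fun x => T x) K := T.injective.injOn
  have hmeas : MeasurableSet K := hK.cpt.isClosed.measurableSet
  have hch : ∀ g : E3 → ℝ, ∫ x in T '' K, g x = |(T : E3 →L[ℝ] E3).det| * ∫ x in K, g (T x) := by
    intro g
    have h1 := integral_image_eq_integral_abs_det_fderiv_smul volume hmeas hder hinj g
    have h2 : ∫ x in K, |(T : E3 →L[ℝ] E3).det| • g (T x) =
        |(T : E3 →L[ℝ] E3).det| * ∫ x in K, g (T x) := by
      simp only [smul_eq_mul]
      rw [integral_const_mul]
    rw [← h2]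
    exact h1
  have hVT : V (T '' K) = |(T : E3 →L[ℝ] E3).det| * V K := by
    have h1 := hch (fun _ => 1)
    simp only [integral_const, smul_eq_mul, mul_one] at h1
    rw [measureReal_restrict_apply_univ, measureReal_restrict_apply_univ] at h1
    exact h1
  rw [hch, hVT]
  have h5 : ∫ x in K, (T x) i * (T x) j = V K * (B * C * Bᵀ) i j := by
    simp only [hT]
    rw [mom_expand hK (B i) (B j), Matrix.mul_apply, Finset.mul_sum]
    simp only [Matrix.mul_apply, Matrix.transpose_apply, Finset.sum_mul, Finset.mul_sum]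
    rw [Finset.sum_comm]
    refine Finset.sum_congr rfl fun b _ => Finset.sum_congr rfl fun a _ => ?_
    rw [hCij]
    ring
  rw [h5, hBCB, Matrix.one_apply]
  split_ifs with hij
  · ring
  · ring

end Pool.Agent.UL3.H24
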